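import Mathlib

open CategoryTheory Set
open scoped ENNReal

namespace Pool.Agent.Results.MP_6cdbe4_gt.Counter

/-- max-min measure of finite support, recorded by its coefficients: w x is the coefficient of
delta_x (bottom when x is not in the support) -/
@[ext] structure J (X : Type) where
  w : X → EReal
  fin : {x | ⊥ < w x}.Finite
  top : ∃ x, w x = ⊤

/-- the functional: mu(phi) = max_x min (w x) (phi x) -/
noncomputable def J.ev {X : Type} (μ : J X) (φ : X → ℝ) : EReal := ⨆ x, min (μ.w x) (φ x)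

/-- phi is constant on every open ball of radius r -/
def FR {X : Type} [MetricSpace X] (r : ℝ) (φ : X → ℝ) : Prop :=
  ∀ x y z : X, y ∈ Metric.ball x r → z ∈ Metric.ball x r → φ y = φ z

/-- the distance d-hat -/
noncomputable def dhat {X : Type} [MetricSpace X] (μ ν : J X) : ℝ≥0∞ :=
  ⨅ (r : ℝ) (_ : 0 < r) (_ : ∀ φ, FR r φ → μ.ev φ = ν.ev φ), ENNReal.ofReal r

open Classical in
/-- unit -/
noncomputable def delta {X : Type} (x : X) : J X where
  w y := if y = x then ⊤ else ⊥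
  fin := (finite_singleton x).subset fun y hy => by
    by_contra h
    simp [show y ≠ x from h] at hy
  top := ⟨x, by simp⟩

/-- J on maps -/
noncomputable def Jmap {X Y : Type} (f : X → Y) (μ : J X) : J Y where
  w y := ⨆ (x : X) (_ : f x = y), μ.w x
  fin := (μ.fin.image f).subset fun y hy => by
    simp only [Set.mem_ofPred_eq, lt_iSup_iff] at hy
    obtain ⟨x, h1, h2⟩ := hy
    exact ⟨x, h2, h1⟩
  top := by
    obtain ⟨x, hx⟩ := μ.top
    exact ⟨f x, top_unique (le_iSup₂_of_le x rfl hx.ge)⟩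

/-- multiplication -/
noncomputable def xi {X : Type} (M : J (J X)) : J X where
  w x := ⨆ μ : J X, min (M.w μ) (μ.w x)
  fin := (M.fin.biUnion fun μ _ => μ.fin).subset fun x hx => by
    simp only [Set.mem_ofPred_eq, lt_iSup_iff, lt_min_iff] at hx
    obtain ⟨μ, h1, h2⟩ := hx
    exact mem_biUnion h1 h2
  top := by
    obtain ⟨μ, h⟩ := M.top
    obtain ⟨x, hx⟩ := μ.top
    exact ⟨x, top_unique (le_iSup_of_le μ (by simp [h, hx]))⟩

/-- ultrametric spaces -/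
structure UM where
  X : Type
  [m : MetricSpace X]
  [u : IsUltrametricDist X]

attribute [instance] UM.m UM.u

/-- the category UMET -/
instance : Category UM where
  Hom A B := {f : A.X → B.X // ∀ x y, dist (f x) (f y) ≤ dist x y}
  id A := ⟨id, fun _ _ => le_rfl⟩
  comp f g := ⟨g.1 ∘ f.1, fun x y => (g.2 _ _).trans (f.2 x y)⟩

/-- nonexpanding maps into J Y -/
def NE {X Y : Type} [MetricSpace X] [MetricSpace Y] (f : X → J Y) : Prop :=
  ∀ x y, dhat (f x) (f y) ≤ ENNReal.ofReal (dist x y)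

section lemmas
variable {X Y Z : Type}

lemma J.ext' {μ ν : J X} (h : ∀ x c, c < μ.w x ↔ c < ν.w x) : μ = ν :=
  J.ext (funext fun x => eq_of_forall_lt_iff (h x))

lemma lt_delta {x y : X} {c : EReal} : c < (delta x).w y ↔ y = x ∧ c < ⊤ := by
  by_cases h : y = x <;> simp [delta, h]

lemma lt_comp (g : X → J Y) (μ : J X) (c : EReal) (y : Y) :
    c < (xi (Jmap g μ)).w y ↔ ∃ x, c < μ.w x ∧ c < (g x).w y := by
  simp only [xi, Jmap, lt_iSup_iff, lt_min_iff]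
  constructor
  · rintro ⟨_, ⟨x, rfl, h⟩, h2⟩; exact ⟨x, h, h2⟩
  · rintro ⟨x, h, h2⟩; exact ⟨_, ⟨x, rfl, h⟩, h2⟩

/-- one-sided matching at scale r -/
def Le [MetricSpace X] (r : ℝ) (μ ν : J X) : Prop :=
  ∀ x c, c < μ.w x → ∃ y, dist x y < r ∧ c < ν.w y

lemma ev_le [MetricSpace X] {r : ℝ} (hr : 0 < r) {μ ν : J X} (h : Le r μ ν) {φ : X → ℝ}
    (hφ : FR r φ) : μ.ev φ ≤ ν.ev φ := by
  refine le_of_forall_lt fun c hc => ?_
  simp only [J.ev, lt_iSup_iff, lt_min_iff] at hc ⊢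
  obtain ⟨x, h1, h2⟩ := hc
  obtain ⟨y, h3, h4⟩ := h x c h1
  refine ⟨y, h4, ?_⟩
  rwa [hφ x y x (by rwa [Metric.mem_ball, dist_comm]) (Metric.mem_ball_self hr)]

lemma le_of_dhat [MetricSpace X] [IsUltrametricDist X] {r : ℝ} {μ ν : J X}
    (h : dhat μ ν < ENNReal.ofReal r) : Le r μ ν := by
  classical
  simp only [dhat, iInf_lt_iff] at h
  obtain ⟨s, hs, h, hsr⟩ := h
  have hsr' : s < r := (ENNReal.ofReal_lt_ofReal_iff_of_nonneg hs.le).1 hsr
  intro x c hc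
  obtain ⟨a, ha1, ha2⟩ := EReal.lt_iff_exists_real_btwn.1 hc
  obtain ⟨b, hb1, hb2⟩ := EReal.lt_iff_exists_real_btwn.1 ha2
  have h1 := h (fun y => if dist x y < s then b else a) (fun p y z hy hz => by
    rw [Metric.mem_ball] at hy hz
    have hyz : dist y z < s := lt_of_le_of_lt (IsUltrametricDist.dist_triangle_max y p z)
      (max_lt hy (by rwa [dist_comm]))
    have : dist x y < s ↔ dist x z < s :=
      ⟨fun h => lt_of_le_of_lt (IsUltrametricDist.dist_triangle_max x y z) (max_lt h hyz),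
       fun h => lt_of_le_of_lt (IsUltrametricDist.dist_triangle_max x z y)
        (max_lt h (by rwa [dist_comm]))⟩
    simp only [this])
  have h2 : (a : EReal) < μ.ev (fun y => if dist x y < s then b else a) := by
    simp only [J.ev, lt_iSup_iff, lt_min_iff]
    exact ⟨x, ha2, by simpa [hs] using hb1⟩
  rw [h1] at h2
  simp only [J.ev, lt_iSup_iff, lt_min_iff] at h2
  obtain ⟨y, h3, h4⟩ := h2
  refine ⟨y, ?_, ha1.trans h3⟩
  by_contra h5
  rw [if_neg (fun h6 => h5 (h6.trans hsr'))] at h4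
  exact lt_irrefl _ h4

lemma dhat_comm [MetricSpace X] (μ ν : J X) : dhat μ ν = dhat ν μ := by
  simp only [dhat, eq_comm]

lemma ne_iff [MetricSpace X] [MetricSpace Y] [IsUltrametricDist Y] {f : X → J Y} :
    NE f ↔ ∀ x y r, dist x y < r → Le r (f x) (f y) := by
  constructor
  · intro h x y r hr
    exact le_of_dhat ((h x y).trans_lt
      ((ENNReal.ofReal_lt_ofReal_iff_of_nonneg dist_nonneg).2 hr))
  · intro h x y
    refine le_of_forall_gt_imp_ge_of_dense fun e he => ?_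
    obtain ⟨r, hr0, h1, h2⟩ := ENNReal.lt_iff_exists_real_btwn.1 he
    have hr : dist x y < r := (ENNReal.ofReal_lt_ofReal_iff_of_nonneg dist_nonneg).1 h1
    have hr1 : 0 < r := dist_nonneg.trans_lt hr
    refine le_trans (iInf_le_of_le r (iInf_le_of_le hr1 (iInf_le_of_le (fun φ hφ => ?_)
      le_rfl))) h2.le
    exact le_antisymm (ev_le hr1 (h x y r hr) hφ) (ev_le hr1 (h y x r (by rwa [dist_comm])) hφ)

lemma ne_delta [MetricSpace X] [MetricSpace Y] [IsUltrametricDist Y] {f : X → Y}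
    (hf : ∀ x y, dist (f x) (f y) ≤ dist x y) : NE fun x => delta (f x) := by
  refine ne_iff.2 fun x y r hr z c hc => ?_
  obtain ⟨rfl, h⟩ := lt_delta.1 hc
  exact ⟨f y, (hf x y).trans_lt hr, lt_delta.2 ⟨rfl, h⟩⟩

lemma ne_comp [MetricSpace X] [MetricSpace Y] [IsUltrametricDist Y] [MetricSpace Z]
    [IsUltrametricDist Z] {f : X → J Y} {g : Y → J Z} (hf : NE f) (hg : NE g) :
    NE (xi ∘ Jmap g ∘ f) := by
  refine ne_iff.2 fun x y r hr z c hc => ?_
  obtain ⟨p, h1, h2⟩ := (lt_comp _ _ _ _).1 hc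
  obtain ⟨q, h3, h4⟩ := ne_iff.1 hf x y r hr p c h1
  obtain ⟨z', h5, h6⟩ := ne_iff.1 hg p q r h3 z c h2
  exact ⟨z', h5, (lt_comp _ _ _ _).2 ⟨q, h4, h6⟩⟩

end lemmas

/-- objects of the Kleisli category -/
structure K where
  ob : UM

/-- the Kleisli category -/
noncomputable instance : Category K where
  Hom A B := {f : A.ob.X → J B.ob.X // NE f}
  id A := ⟨delta, ne_delta (f := id) fun _ _ => le_rfl⟩
  comp f g := ⟨xi ∘ Jmap g.1 ∘ f.1, ne_comp f.2 g.2⟩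
  id_comp f := Subtype.ext (funext fun x => J.ext' fun y c => by
    simp only [Function.comp, lt_comp, lt_delta]
    exact ⟨fun ⟨_, ⟨rfl, _⟩, h⟩ => h, fun h => ⟨x, ⟨rfl, h.trans_le le_top⟩, h⟩⟩)
  comp_id f := Subtype.ext (funext fun x => J.ext' fun y c => by
    simp only [Function.comp, lt_comp, lt_delta]
    exact ⟨fun ⟨_, h, rfl, _⟩ => h, fun h => ⟨y, h, rfl, h.trans_le le_top⟩⟩)
  assoc f g h := Subtype.ext (funext fun x => J.ext' fun y c => by
    simp only [Function.comp, lt_comp]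
    exact ⟨fun ⟨a, ⟨b, h1, h2⟩, h3⟩ => ⟨b, h1, a, h2, h3⟩,
      fun ⟨b, h1, a, h2, h3⟩ => ⟨a, ⟨b, h1, h2⟩, h3⟩⟩)

/-- the functor Phi -/
noncomputable def Phi : UM ⥤ K where
  obj A := ⟨A⟩
  map f := ⟨delta ∘ f.1, ne_delta f.2⟩
  map_id _ := rfl
  map_comp f g := Subtype.ext (funext fun x => J.ext' fun y c => by
    change c < (delta (g.1 (f.1 x))).w y ↔ c < (xi (Jmap (delta ∘ g.1) (delta (f.1 x)))).w y
    simp only [Function.comp, lt_comp, lt_delta]
    exact ⟨fun ⟨h1, h2⟩ => ⟨_, ⟨rfl, h2⟩, h1, h2⟩, fun ⟨_, ⟨rfl, _⟩, h⟩ => h⟩)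

section SP
variable {n : ℕ} (G : Subgroup (Equiv.Perm (Fin n)))

/-- orbit relation of G on X^n -/
def orb (X : Type) : Setoid (Fin n → X) where
  r x y := ∃ σ : G, y = x ∘ σ.1
  iseqv := ⟨fun x => ⟨1, rfl⟩, fun ⟨σ, h⟩ => ⟨σ⁻¹, by ext i; simp [h]⟩,
    fun ⟨σ, h⟩ ⟨τ, h'⟩ => ⟨σ * τ, by ext i; simp [h, h']⟩⟩

/-- SP^n_G X -/
def SP (X : Type) : Type := Quotient (orb G X)

def mk {X : Type} (x : Fin n → X) : SP G X := Quotient.mk (orb G X) x

/-- min over sigma in G of max_i d(x_i, y_sigma(i)) -/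
noncomputable def dt {X : Type} [MetricSpace X] (x y : Fin n → X) : ℝ :=
  ⨅ σ : G, dist x (y ∘ σ.1)

variable {G}
variable {X Y : Type}

lemma mk_eq {x y : Fin n → X} : mk G x = mk G y ↔ ∃ σ : G, y = x ∘ σ.1 := Quotient.eq

lemma mk_perm (x : Fin n → X) (σ : G) : mk G (x ∘ σ.1) = mk G x := (mk_eq.2 ⟨σ, rfl⟩).symm

lemma mk_surj (u : SP G X) : ∃ x, mk G x = u := Quotient.exists_rep u

variable [MetricSpace X]

lemma dist_perm (x y : Fin n → X) (σ : Equiv.Perm (Fin n)) : dist (x ∘ σ) (y ∘ σ) = dist x y := by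
  have h : ∀ (x y : Fin n → X) (σ : Equiv.Perm (Fin n)), dist (x ∘ σ) (y ∘ σ) ≤ dist x y :=
    fun x y σ => (dist_pi_le_iff dist_nonneg).2 fun i => dist_le_pi_dist x y (σ i)
  refine le_antisymm (h x y σ) ?_
  have := h (x ∘ σ) (y ∘ σ) σ⁻¹
  have e : ∀ z : Fin n → X, (z ∘ σ) ∘ ⇑σ⁻¹ = z := fun z => by ext i; simp
  rwa [e, e] at this

lemma dt_le (x y : Fin n → X) (σ : G) : dt G x y ≤ dist x (y ∘ σ.1) :=
  ciInf_le (Set.finite_range _).bddBelow σ

lemma dt_eq (x y : Fin n → X) : ∃ σ : G, dist x (y ∘ σ.1) = dt G x y :=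
  exists_eq_ciInf_of_finite

lemma dt_le' (x y : Fin n → X) (σ τ : G) : dt G x y ≤ dist (x ∘ σ.1) (y ∘ τ.1) := by
  refine (dt_le x y (τ * σ⁻¹)).trans_eq ?_
  rw [← dist_perm _ _ σ.1]
  congr 1
  ext i; simp

lemma dt_perm (x y : Fin n → X) (σ τ : G) : dt G (x ∘ σ.1) (y ∘ τ.1) = dt G x y := by
  refine le_antisymm ?_ ?_
  · obtain ⟨ρ, h⟩ := dt_eq (G := G) x y
    rw [← h]
    refine (dt_le' _ _ σ⁻¹ (τ⁻¹ * ρ)).trans_eq ?_
    congr 1 <;> (ext i; simp)
  · obtain ⟨ρ, h⟩ := dt_eq (G := G) (x ∘ σ.1) (y ∘ τ.1)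
    rw [← h]
    exact dt_le' x y σ (τ * ρ)

noncomputable instance : Dist (SP G X) :=
  ⟨Quotient.lift₂ (dt G) (by rintro x y _ _ ⟨σ, rfl⟩ ⟨τ, rfl⟩; exact (dt_perm x y σ τ).symm)⟩

lemma dist_mk (x y : Fin n → X) : dist (mk G x) (mk G y) = dt G x y := rfl

lemma rep (x : Fin n → X) (v : SP G X) : ∃ y, mk G y = v ∧ dist x y = dist (mk G x) v := by
  obtain ⟨y, rfl⟩ := mk_surj v
  obtain ⟨σ, h⟩ := dt_eq (G := G) x y
  exact ⟨y ∘ σ.1, mk_perm y σ, h⟩

lemma dist_mk_le (x y : Fin n → X) : dist (mk G x) (mk G y) ≤ dist x y := dt_le x y 1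

noncomputable instance : MetricSpace (SP G X) where
  dist_self u := by
    obtain ⟨x, rfl⟩ := mk_surj u
    obtain ⟨y, -, h⟩ := rep x (mk G x)
    exact le_antisymm ((dist_mk_le x x).trans_eq (dist_self x)) (h ▸ dist_nonneg)
  dist_comm := by
    have : ∀ u v : SP G X, dist v u ≤ dist u v := fun u v => by
      obtain ⟨x, rfl⟩ := mk_surj u
      obtain ⟨y, rfl, h⟩ := rep x v
      rw [← h, dist_comm x y]; exact dist_mk_le y x
    exact fun u v => le_antisymm (this v u) (this u v)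
  dist_triangle u v w := by
    obtain ⟨x, rfl⟩ := mk_surj u
    obtain ⟨y, rfl, h⟩ := rep x v
    obtain ⟨z, rfl, h'⟩ := rep y w
    rw [← h, ← h']; exact (dist_mk_le x z).trans (dist_triangle x y z)
  eq_of_dist_eq_zero {u v} h0 := by
    obtain ⟨x, rfl⟩ := mk_surj u
    obtain ⟨y, rfl, h⟩ := rep x v
    rw [dist_eq_zero.1 (h.trans h0)]

instance [IsUltrametricDist X] : IsUltrametricDist (SP G X) where
  dist_triangle_max u v w := by
    obtain ⟨x, rfl⟩ := mk_surj u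
    obtain ⟨y, rfl, h⟩ := rep x v
    obtain ⟨z, rfl, h'⟩ := rep y w
    rw [← h, ← h']
    refine (dist_mk_le x z).trans ((dist_pi_le_iff (le_max_of_le_left dist_nonneg)).2 fun i => ?_)
    exact (IsUltrametricDist.dist_triangle_max (x i) (y i) (z i)).trans
      (max_le_max (dist_le_pi_dist x y i) (dist_le_pi_dist y z i))

end SP

/-- SP^n_G on maps -/
def SPmap {n : ℕ} (G : Subgroup (Equiv.Perm (Fin n))) {X Y : Type} (f : X → Y) :
    SP G X → SP G Y :=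
  Quotient.map (fun x => f ∘ x) (by rintro x _ ⟨σ, rfl⟩; exact ⟨σ, rfl⟩)

/-- the functor SP^n_G on UMET -/
noncomputable def SPF {n : ℕ} (G : Subgroup (Equiv.Perm (Fin n))) : UM ⥤ UM where
  obj A := ⟨SP G A.X⟩
  map f := ⟨SPmap G f.1, fun u v => by
    obtain ⟨x, rfl⟩ := mk_surj u
    obtain ⟨y, rfl, h⟩ := rep x v
    rw [← h]
    exact (dist_mk_le (f.1 ∘ x) (f.1 ∘ y)).trans ((dist_pi_le_iff dist_nonneg).2 fun i =>
      (f.2 _ _).trans (dist_le_pi_dist x y i))⟩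
  map_id A := Subtype.ext (funext fun u => by obtain ⟨x, rfl⟩ := mk_surj u; rfl)
  map_comp f g := Subtype.ext (funext fun u => by obtain ⟨x, rfl⟩ := mk_surj u; rfl)

section tensor
variable {n : ℕ} (G : Subgroup (Equiv.Perm (Fin n))) {X Y : Type}

lemma lt_inf {c : EReal} {a : Fin n → EReal} : c < ⨅ i, a i ↔ c < ⊤ ∧ ∀ i, c < a i := by
  constructor
  · exact fun h => ⟨h.trans_le le_top, fun i => h.trans_le (iInf_le a i)⟩
  · rintro ⟨h1, h2⟩
    rw [← Finset.inf_univ_eq_iInf, Finset.lt_inf_iff h1]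
    exact fun i _ => h2 i

noncomputable def ten (m : Fin n → J Y) : J (SP G Y) where
  w v := ⨆ (y : Fin n → Y) (_ : mk G y = v), ⨅ i, (m i).w (y i)
  fin := ((Set.Finite.pi' fun i => (m i).fin).image (mk G)).subset fun v hv => by
    simp only [Set.mem_ofPred_eq, lt_iSup_iff, lt_inf] at hv
    obtain ⟨y, h1, -, h2⟩ := hv
    exact ⟨y, h2, h1⟩
  top := by
    choose y hy using fun i => (m i).top
    exact ⟨mk G y, top_unique (le_iSup₂_of_le y rfl (by simp [hy]))⟩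

variable {G}

lemma lt_ten (m : Fin n → J Y) (c : EReal) (v : SP G Y) :
    c < (ten G m).w v ↔ ∃ y, mk G y = v ∧ c < ⊤ ∧ ∀ i, c < (m i).w (y i) := by
  simp only [ten, lt_iSup_iff, lt_inf, exists_prop]

lemma ten_perm (m : Fin n → J Y) (σ : G) : ten G (m ∘ σ.1) = ten G m := by
  refine J.ext' fun v c => ?_
  simp only [lt_ten]
  constructor
  · rintro ⟨y, rfl, h1, h2⟩
    exact ⟨y ∘ (σ⁻¹).1, mk_perm y _, h1, fun i => by simpa using h2 ((σ⁻¹).1 i)⟩
  · rintro ⟨y, rfl, h1, h2⟩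
    exact ⟨y ∘ σ.1, mk_perm y _, h1, fun i => h2 (σ.1 i)⟩

noncomputable def tmap (f : X → J Y) : SP G X → J (SP G Y) :=
  Quotient.lift (fun x => ten G (f ∘ x)) (by rintro x _ ⟨σ, rfl⟩; exact (ten_perm _ σ).symm)

lemma tmap_mk (f : X → J Y) (x : Fin n → X) : tmap f (mk G x) = ten G (f ∘ x) := rfl

lemma tmap_delta (f : X → Y) : tmap (delta ∘ f) = delta ∘ SPmap G f := by
  funext u
  obtain ⟨x, rfl⟩ := mk_surj u
  refine J.ext' fun v c => ?_
  simp only [tmap_mk, lt_ten, Function.comp, lt_delta]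
  constructor
  · rintro ⟨y, rfl, h1, h2⟩
    exact ⟨congrArg (mk G) (funext fun i => (h2 i).1), h1⟩
  · rintro ⟨rfl, h⟩
    exact ⟨f ∘ x, rfl, h, fun i => ⟨rfl, h⟩⟩

variable (G) in
noncomputable def Ten : K ⥤ K where
  obj A := ⟨(SPF G).obj A.ob⟩
  map f := ⟨tmap f.1, ne_iff.2 fun u v r hr z c hc => by
    obtain ⟨x, rfl⟩ := mk_surj u
    obtain ⟨y, rfl, h⟩ := rep x v
    obtain ⟨p, rfl, h1, h2⟩ := (lt_ten _ _ _).1 hc
    have hr' : dist x y < r := h.trans_lt hr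
    choose q hq using fun i => ne_iff.1 f.2 (x i) (y i) r
      ((dist_le_pi_dist x y i).trans_lt hr') (p i) c (h2 i)
    exact ⟨mk G q, (dist_mk_le p q).trans_lt ((dist_pi_lt_iff (dist_nonneg.trans_lt hr')).2
      fun i => (hq i).1), (lt_ten _ _ _).2 ⟨q, rfl, h1, fun i => (hq i).2⟩⟩⟩
  map_id A := Subtype.ext ((tmap_delta (G := G) id).trans
    (funext fun u => by obtain ⟨x, rfl⟩ := mk_surj u; rfl))
  map_comp f g := Subtype.ext (funext fun u => J.ext' fun v c => by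
    obtain ⟨x, rfl⟩ := mk_surj u
    change c < (ten G ((xi ∘ Jmap g.1 ∘ f.1) ∘ x)).w v ↔
      c < (xi (Jmap (tmap g.1) (ten G (f.1 ∘ x)))).w v
    simp only [lt_comp, lt_ten, Function.comp]
    constructor
    · rintro ⟨z, rfl, h1, h2⟩
      choose y hy using h2
      exact ⟨mk G y, ⟨y, rfl, h1, fun i => (hy i).1⟩,
        (lt_ten _ _ _).2 ⟨z, rfl, h1, fun i => (hy i).2⟩⟩
    · rintro ⟨_, ⟨y, rfl, h1, h2⟩, h3⟩
      obtain ⟨z, rfl, -, h4⟩ := (lt_ten _ _ _).1 h3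
      exact ⟨z, rfl, h1, fun i => ⟨y i, h2 i, h4 i⟩⟩)

end tensor

open Classical in
/-- raise every coefficient above bottom to top -/
noncomputable def up {X : Type} (μ : J X) : J X where
  w x := if ⊥ < μ.w x then ⊤ else ⊥
  fin := μ.fin.subset fun x hx => by
    by_contra h
    rw [Set.mem_ofPred_eq, if_neg (show ¬ ⊥ < μ.w x from h)] at hx
    exact lt_irrefl _ hx
  top := by
    obtain ⟨x, hx⟩ := μ.top
    exact ⟨x, by simp [hx]⟩

lemma lt_up {X : Type} (μ : J X) (c : EReal) (x : X) : c < (up μ).w x ↔ ⊥ < μ.w x ∧ c < ⊤ := by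
  by_cases h : ⊥ < μ.w x
  · simp only [up, h, if_true, true_and]
  · simp only [up, h, if_false, false_and, not_lt_bot]

lemma up_delta {X : Type} (x : X) : up (delta x) = delta x :=
  J.ext' fun y c => by simp [lt_up, lt_delta]

noncomputable def Psi : K ⥤ K where
  obj A := A
  map f := ⟨up ∘ f.1, ne_iff.2 fun x y r hr z c hc => by
    obtain ⟨h1, h2⟩ := (lt_up _ _ _).1 hc
    obtain ⟨p, h3, h4⟩ := ne_iff.1 f.2 x y r hr z ⊥ h1
    exact ⟨p, h3, (lt_up _ _ _).2 ⟨h4, h2⟩⟩⟩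
  map_id A := Subtype.ext (funext fun x => up_delta x)
  map_comp f g := Subtype.ext (funext fun x => J.ext' fun y c => by
    change c < (up (xi (Jmap g.1 (f.1 x)))).w y ↔ c < (xi (Jmap (up ∘ g.1) (up (f.1 x)))).w y
    simp only [lt_comp, lt_up, Function.comp]
    exact ⟨fun ⟨⟨a, h1, h2⟩, h⟩ => ⟨a, ⟨h1, h⟩, h2, h⟩, fun ⟨a, ⟨h1, h⟩, h2, _⟩ => ⟨⟨a, h1, h2⟩, h⟩⟩)

open Classical in
noncomputable def mu0 : J ℤ_[2] where
  w x := if x = 0 then ⊤ else if x = 1 then 0 else ⊥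
  fin := (toFinite ({0, 1} : Set ℤ_[2])).subset fun x hx => by
    by_contra h
    simp only [mem_insert_iff, mem_singleton_iff, not_or] at h
    simp [h.1, h.2] at hx
  top := ⟨0, by simp⟩

noncomputable def f0 : (⟨⟨ℤ_[2]⟩⟩ : K) ⟶ ⟨⟨ℤ_[2]⟩⟩ :=
  ⟨fun _ => mu0, ne_iff.2 fun _ _ _ hr z _ hc =>
    ⟨z, (dist_self z).trans_lt (dist_nonneg.trans_lt hr), hc⟩⟩

theorem result (n : ℕ) (hn : 1 ≤ n) (G : Subgroup (Equiv.Perm (Fin n))) :
    ∃ F₁ F₂ : K ⥤ K, F₁ ≠ F₂ ∧ Phi ⋙ F₁ = SPF G ⋙ Phi ∧ Phi ⋙ F₂ = SPF G ⋙ Phi := by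
  refine ⟨Ten G, Psi ⋙ Ten G, fun h => ?_, ?_, ?_⟩
  · have h2 : (Ten G).map f0 = (Ten G).map (Psi.map f0) := eq_of_heq (Functor.hcongr_hom h f0)
    have h3 : ten G (fun _ : Fin n => mu0) = ten G (fun _ : Fin n => up mu0) :=
      congrFun (congrArg Subtype.val h2) (mk G fun _ => 0)
    have h4 : (0 : EReal) < (ten G (fun _ : Fin n => up mu0)).w (mk G fun _ => 1) :=
      (lt_ten _ _ _).2 ⟨_, rfl, EReal.zero_lt_top, fun i => (lt_up _ _ _).2
        ⟨by simp [mu0], EReal.zero_lt_top⟩⟩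
    rw [← h3] at h4
    obtain ⟨y, h5, -, h6⟩ := (lt_ten _ _ _).1 h4
    obtain ⟨σ, rfl⟩ := mk_eq.1 h5.symm
    simpa [mu0] using h6 ⟨0, hn⟩
  · exact Functor.hext (fun _ => rfl) fun A B f => heq_of_eq (Subtype.ext (tmap_delta f.1))
  · refine Functor.hext (fun _ => rfl) fun A B f => heq_of_eq (Subtype.ext ?_)
    have : up ∘ delta ∘ f.1 = delta ∘ f.1 := funext fun x => up_delta _
    change tmap (up ∘ delta ∘ f.1) = _
    rw [this]
    exact tmap_delta f.1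

end Pool.Agent.Results.MP_6cdbe4_gt.Counter
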